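import Pool.Agent.H66.DC.Top

/-!
# Dual Chow polynomials of paving matroids have only nonpositive real zeros

The definitions (`Flat`, `rk`, `gap`, `dualChow`, `IsPaving`) are in `Pool/Agent/H66/DC/Defs.lean`.
-/

namespace Pool.Agent.Results.MP_1a95b2_co.Paving

open DualChow Finset Polynomial IncidenceAlgebra

variable {α : Type*} {M : Matroid α} [M.Finite]

/-- In rank at most one the dual Chow polynomial is a nonzero constant. -/
lemma low_rank {n : ℕ} (hr : M.eRank = (n : ℕ∞)) (hn : n ≤ 1) (z : ℂ) :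
    aeval z (dualChow M) ≠ 0 := by
  classical
  have ht : rk M (⊤ : Flat M) = n := by
    have h : ((rk M (⊤ : Flat M) : ℕ) : ℕ∞) = (n : ℕ∞) := by
      rw [rk_cast, ← hr]; exact M.eRk_ground
    exact_mod_cast h
  rw [dualChow_eq, chain_rec]
  have h0 : ∑ F : Flat M with F < ⊤,
      (∑ᶠ m : ℕ, chainSum (uu M) (ww M) F m) * ww M F ⊤ = 0 := by
    apply sum_eq_zero
    intro F hF
    have h1 := rk_lt_of_lt (mem_filter.1 hF).2
    have h2 : rk M (⊤ : Flat M) - rk M F = 1 := by omega
    unfold ww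
    rw [h2, gap_eq, wq_one]
    ring
  rw [h0, add_zero]
  have h3 : mu ℤ (⊥ : Flat M) ⊤ ≠ 0 := by
    by_cases hbt : (⊥ : Flat M) = ⊤
    · rw [hbt]; simp
    · rw [mu_eq_neg_sum_Ico_of_ne hbt]
      have h4 : Ico (⊥ : Flat M) ⊤ = {⊥} := by
        ext F
        rw [mem_Ico, mem_singleton]
        constructor
        · rintro ⟨-, h5⟩
          by_contra h6
          have h7 := rk_lt_of_lt h5
          have h8 := rk_lt_of_lt (lt_of_le_of_ne bot_le (Ne.symm h6))
          omega
        · rintro rfl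
          exact ⟨le_rfl, lt_of_le_of_ne bot_le hbt⟩
      rw [h4]; simp
  unfold uu
  rw [map_mul, map_pow, map_neg, map_one, aeval_C]
  have h5 : (algebraMap ℤ ℂ) (mu ℤ (⊥ : Flat M) ⊤) ≠ 0 := by
    simpa using h3
  exact mul_ne_zero (pow_ne_zero _ (by norm_num)) h5

/-- Every complex zero of the dual Chow polynomial of a paving matroid (of any rank, on a finite
ground set) is a nonpositive real number. -/
theorem result {α : Type*} (M : Matroid α) [M.Finite] (hp : IsPaving M) (z : ℂ)
    (hz : aeval z (dualChow M) = 0) : z.im = 0 ∧ z.re ≤ 0 := by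
  obtain ⟨n, hn⟩ : ∃ n : ℕ, M.eRank = (n : ℕ∞) := by
    have h : M.eRank ≠ ⊤ := M.eRank_ne_top_iff.2 inferInstance
    exact ⟨M.eRank.toNat, (ENat.natCast_toNat h).symm⟩
  rcases Nat.lt_or_ge n 2 with h | h
  · exact absurd hz (low_rank hn (by omega) z)
  · obtain ⟨K, rfl⟩ : ∃ K, n = K + 2 := ⟨n - 2, by omega⟩
    exact paving_rank_ge_two hn hp z hz

end Pool.Agent.Results.MP_1a95b2_co.Paving
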