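import Pool.Agent.DCC8.Main

/-!
# A matroid of rank 5 whose dual Chow polynomial has a non-real zero

The definition of the dual Chow polynomial is in `Pool/Agent/H66/DC/Defs.lean`.
The matroid is constructed in `Pool/Agent/DCC8/Defs.lean` and `Pool/Agent/DCC8/MatDef.lean`.
-/

namespace Pool.Agent.Results.MP_1a95b2_co.RankFive

open DualChow Polynomial

/-- There is a matroid `M` of rank `5` on a finite ground set whose dual Chow polynomial is not
the zero polynomial and has a complex zero which is not real. -/
theorem result : ∃ (α : Type) (_ : Fintype α) (M : Matroid α), M.eRank = 5 ∧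
    dualChow M ≠ 0 ∧ ∃ z : ℂ, z.im ≠ 0 ∧ aeval z (dualChow M) = 0 :=
  DCC8.main

end Pool.Agent.Results.MP_1a95b2_co.RankFive
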